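import Pool.Agent.V5helper74.OT.CNT

/-!
# Project OT: counting
-/

set_option autoImplicit false

namespace Pool.Agent.V5helper57.OT

open Finset

section
variable {F : Type} [Field F]

theorem good_zero {b01 b10 c0 c1 b20 b21 : F} : ¬ Good b01 0 b10 0 b20 b21 c0 c1 0 := fun h => h.2.2.1 rfl

theorem good_scale {b01 b02 b10 b12 b20 b21 c0 c1 c2 : F} (c : F) (hc : c ≠ 0)
    (h : Good b01 b02 b10 b12 b20 b21 c0 c1 c2) : Good b01 (c * b02) b10 (c * b12) b20 b21 c0 c1 (c * c2) := by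
  obtain ⟨h1, h2, h3, h4, h5, h6, h7⟩ := h
  refine ⟨h1, h2, fun h => h3 (mul_left_cancel₀ hc h), h4, fun h => h5 (mul_left_cancel₀ hc ?_),
    fun h => h6 (mul_left_cancel₀ hc ?_), ?_⟩
  · linear_combination h
  · linear_combination h
  · have e : Phi b01 (c * b02) b10 (c * b12) b20 b21 c0 c1 (c * c2) = c ^ 2 * Phi b01 b02 b10 b12 b20 b21 c0 c1 c2 := by
      unfold Phi
      ring
    rw [e]
    exact mul_ne_zero (pow_ne_zero 2 hc) h7

end

/-! ### one prime, two primes -/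

open Classical in
theorem cnt1 (p : ℕ) [Fact p.Prime] : (p - 1) ^ 2 ≤
    ((univ : Finset ((Fin 1 → ZMod p) × (Fin 1 → ZMod p))).filter fun z => z.1 0 ≠ 0 ∧ z.2 0 ≠ 0).card := by
  have hc : ((univ : Finset (ZMod p)).filter fun x => x ≠ 0).card = p - 1 := by
    rw [filter_ne', card_erase_of_mem (mem_univ _), card_univ, ZMod.card]
  have h1 : ((((univ : Finset (ZMod p)).filter fun x => x ≠ 0) ×ˢ
      ((univ : Finset (ZMod p)).filter fun x => x ≠ 0)).card) = (p - 1) ^ 2 := by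
    rw [card_product, hc, pow_two]
  rw [← h1]
  refine card_le_card_of_injOn (fun d => ((fun _ => d.1), (fun _ => d.2))) ?_ ?_
  · rintro ⟨a, b⟩ hd
    obtain ⟨ha, hb⟩ := mem_product.1 (mem_coe.1 hd)
    exact mem_coe.2 (mem_filter.2 ⟨mem_univ _, (mem_filter.1 ha).2, (mem_filter.1 hb).2⟩)
  · rintro ⟨a, b⟩ - ⟨a', b'⟩ - hd
    have k1 : a = a' := congrFun (congrArg Prod.fst hd) 0
    have k2 : b = b' := congrFun (congrArg Prod.snd hd) 0
    rw [k1, k2]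

open Classical in
theorem cnt2 (p : ℕ) [Fact p.Prime] {u0 c0 : ZMod p} (hu : u0 ≠ 0) (hc0 : c0 ≠ 0) : p ^ 2 * (p - 1) ^ 2 ≤
    ((univ : Finset ((Fin 2 → ZMod p) × (Fin 2 → ZMod p))).filter fun z =>
      z.2 0 ≠ 0 ∧ z.1 1 / u0 * c0 ≠ z.2 1 / z.2 0 * z.1 0).card := by
  have hc : ((univ : Finset (ZMod p)).filter fun x => x ≠ 0).card = p - 1 := by
    rw [filter_ne', card_erase_of_mem (mem_univ _), card_univ, ZMod.card]
  -- `d = (w 0, s 1, s 0, t)`, `t ≠ 0`, `w 1 = (s 1 / s 0 * w 0 + t) * u0 / c0`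
  have h1 : ((((univ : Finset (ZMod p)) ×ˢ (univ : Finset (ZMod p))) ×ˢ
      (((univ : Finset (ZMod p)).filter fun x => x ≠ 0) ×ˢ
      ((univ : Finset (ZMod p)).filter fun x => x ≠ 0))).card) = p ^ 2 * (p - 1) ^ 2 := by
    rw [card_product, card_product, card_product, hc, card_univ, ZMod.card, pow_two, pow_two]
  rw [← h1]
  refine card_le_card_of_injOn (fun d => (![d.1.1, (d.1.2 / d.2.1 * d.1.1 + d.2.2) * u0 / c0], ![d.2.1, d.1.2])) ?_ ?_
  · rintro ⟨⟨a, b⟩, c, d⟩ hd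
    obtain ⟨-, h2⟩ := mem_product.1 (mem_coe.1 hd)
    obtain ⟨h3, h4⟩ := mem_product.1 h2
    refine mem_coe.2 (mem_filter.2 ⟨mem_univ _, (mem_filter.1 h3).2, ?_⟩)
    show (b / c * a + d) * u0 / c0 / u0 * c0 ≠ b / c * a
    have e : (b / c * a + d) * u0 / c0 / u0 * c0 = b / c * a + d := by
      field_simp
    rw [e]
    intro h
    apply (mem_filter.1 h4).2
    linear_combination h
  · rintro ⟨⟨a, b⟩, c, d⟩ - ⟨⟨a', b'⟩, c', d'⟩ - hd
    have k1 := congrArg Prod.fst hd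
    have k2 := congrArg Prod.snd hd
    have e1 : a = a' := congrFun k1 0
    have e2 : (b / c * a + d) * u0 / c0 = (b' / c' * a' + d') * u0 / c0 := congrFun k1 1
    have e3 : c = c' := congrFun k2 0
    have e4 : b = b' := congrFun k2 1
    subst e1 e3 e4
    have e5 : (b / c * a + d) * u0 = (b / c * a + d') * u0 := by
      rw [div_eq_div_iff hc0 hc0] at e2
      exact mul_right_cancel₀ hc0 e2
    have e6 := mul_right_cancel₀ hu e5
    have e7 : d = d' := by linear_combination e6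
    rw [e7]

/-! ### three primes, `p = 3` -/

instance decGood (b01 b02 b10 b12 b20 b21 c0 c1 c2 : ZMod 3) : Decidable (Good b01 b02 b10 b12 b20 b21 c0 c1 c2) := by
  unfold Good Phi
  infer_instance

theorem cn3_min : ∀ b01 b10 c0 c1 : ZMod 3, b01 * c0 ≠ b10 * c1 →
    12 ≤ ((univ : Finset (ZMod 3 × ZMod 3 × ZMod 3 × ZMod 3 × ZMod 3)).filter fun z =>
      Good b01 z.1 b10 z.2.1 z.2.2.1 z.2.2.2.1 c0 c1 z.2.2.2.2).card := by
  decide +kernel

theorem cn3_ne : 2 ≤ ((univ : Finset (ZMod 3)).filter fun x => x ≠ 0).card := by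
  decide +kernel

open Classical in
theorem cnt3_three [Fact (Nat.Prime 3)] (b01 b10 c0 c1 u0 u1 : ZMod 3) (h0 : u0 ≠ 0) (h1 : u1 ≠ 0) (h : b01 * c0 ≠ b10 * c1) :
    24 ≤ ((univ : Finset ((Fin 3 → ZMod 3) × (Fin 3 → ZMod 3))).filter fun z =>
      z.2 0 ≠ 0 ∧ Good b01 (z.1 1 / u0) b10 (z.1 2 / u1) (z.2 1 / z.2 0) (z.2 2 / z.2 0) c0 c1 (z.1 0)).card := by
  have hm : 24 ≤ ((((univ : Finset (ZMod 3 × ZMod 3 × ZMod 3 × ZMod 3 × ZMod 3)).filter fun z =>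
      Good b01 z.1 b10 z.2.1 z.2.2.1 z.2.2.2.1 c0 c1 z.2.2.2.2) ×ˢ
      ((univ : Finset (ZMod 3)).filter fun x => x ≠ 0)).card) := by
    have e1 : 12 ≤ ((univ : Finset (ZMod 3 × ZMod 3 × ZMod 3 × ZMod 3 × ZMod 3)).filter fun z =>
      Good b01 z.1 b10 z.2.1 z.2.2.1 z.2.2.2.1 c0 c1 z.2.2.2.2).card := by
      refine (cn3_min b01 b10 c0 c1 h).trans (le_of_eq ?_)
      congr!
    have e2 : 2 ≤ ((univ : Finset (ZMod 3)).filter fun x => x ≠ 0).card := by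
      refine cn3_ne.trans (le_of_eq ?_)
      congr!
    rw [card_product]
    exact Nat.mul_le_mul e1 e2
  refine hm.trans (card_le_card_of_injOn (fun d => (![d.1.2.2.2.2, d.1.1 * u0, d.1.2.1 * u1],
    ![d.2, d.1.2.2.1 * d.2, d.1.2.2.2.1 * d.2])) ?_ ?_)
  · rintro ⟨⟨a, b, c, d, e⟩, f⟩ hd
    obtain ⟨h2, h3⟩ := mem_product.1 (mem_coe.1 hd)
    have h4 : f ≠ 0 := (mem_filter.1 h3).2
    have h5 : Good b01 a b10 b c d c0 c1 e := (mem_filter.1 h2).2
    refine mem_coe.2 (mem_filter.2 ⟨mem_univ _, h4, ?_⟩)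
    show Good b01 (a * u0 / u0) b10 (b * u1 / u1) (c * f / f) (d * f / f) c0 c1 e
    rw [mul_div_cancel_right₀ _ h0, mul_div_cancel_right₀ _ h1, mul_div_cancel_right₀ _ h4, mul_div_cancel_right₀ _ h4]
    exact h5
  · rintro ⟨⟨a, b, c, d, e⟩, f⟩ hd ⟨⟨a', b', c', d', e'⟩, f'⟩ hd' hdd
    have hf : f ≠ 0 := (mem_filter.1 (mem_product.1 (mem_coe.1 hd)).2).2
    have k1 := congrArg Prod.fst hdd
    have k2 := congrArg Prod.snd hdd
    have e1 : e = e' := congrFun k1 0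
    have e2 : a * u0 = a' * u0 := congrFun k1 1
    have e3 : b * u1 = b' * u1 := congrFun k1 2
    have e4 : f = f' := congrFun k2 0
    have e5 : c * f = c' * f' := congrFun k2 1
    have e6 : d * f = d' * f' := congrFun k2 2
    subst e1 e4
    rw [mul_right_cancel₀ h0 e2, mul_right_cancel₀ h1 e3, mul_right_cancel₀ hf e5, mul_right_cancel₀ hf e6]

/-! ### three primes -/

/-- the proportion -/
noncomputable def del (p : ℕ) : ℝ :=
  if p = 3 then 8 / 243 else (1 - 1 / (p : ℝ)) ^ 2 * (1 - 2 / (p : ℝ)) * (1 - 3 / (p : ℝ)) * (1 - 4 / (p : ℝ))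

theorem ge5 {p : ℕ} (hp : p.Prime) (h2 : p ≠ 2) (h3 : p ≠ 3) : 5 ≤ p := by
  have h := hp.two_le
  by_contra hlt
  have h4 : p = 4 := by omega
  rw [h4] at hp
  exact absurd hp (by decide)

theorem del_pos {p : ℕ} (hp : p.Prime) (h2 : p ≠ 2) : 0 < del p := by
  unfold del
  split_ifs with h
  · norm_num
  · have h5 : (5 : ℝ) ≤ p := by exact_mod_cast ge5 hp h2 h
    have hp0 : (0 : ℝ) < p := by linarith
    have g1 : 0 < 1 - 1 / (p : ℝ) := by rw [sub_pos, div_lt_one hp0]; linarith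
    have g2 : 0 < 1 - 2 / (p : ℝ) := by rw [sub_pos, div_lt_one hp0]; linarith
    have g3 : 0 < 1 - 3 / (p : ℝ) := by rw [sub_pos, div_lt_one hp0]; linarith
    have g4 : 0 < 1 - 4 / (p : ℝ) := by rw [sub_pos, div_lt_one hp0]; linarith
    positivity

theorem del_le {p : ℕ} (hp : p.Prime) (h2 : p ≠ 2) : del p ≤ 1 := by
  unfold del
  split_ifs with h
  · norm_num
  · have h5 : (5 : ℝ) ≤ p := by exact_mod_cast ge5 hp h2 h
    have hp0 : (0 : ℝ) < p := by linarith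
    have g1 : 0 < 1 - 1 / (p : ℝ) := by rw [sub_pos, div_lt_one hp0]; linarith
    have g2 : 0 < 1 - 2 / (p : ℝ) := by rw [sub_pos, div_lt_one hp0]; linarith
    have g3 : 0 < 1 - 3 / (p : ℝ) := by rw [sub_pos, div_lt_one hp0]; linarith
    have g4 : 0 < 1 - 4 / (p : ℝ) := by rw [sub_pos, div_lt_one hp0]; linarith
    have k1 : (1 - 1 / (p : ℝ)) ≤ 1 := by
      have : 0 < 1 / (p : ℝ) := by positivity
      linarith
    have k2 : (1 - 2 / (p : ℝ)) ≤ 1 := by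
      have : 0 < 2 / (p : ℝ) := by positivity
      linarith
    have k3 : (1 - 3 / (p : ℝ)) ≤ 1 := by
      have : 0 < 3 / (p : ℝ) := by positivity
      linarith
    have k4 : (1 - 4 / (p : ℝ)) ≤ 1 := by
      have : 0 < 4 / (p : ℝ) := by positivity
      linarith
    have m1 : (1 - 1 / (p : ℝ)) ^ 2 ≤ 1 := pow_le_one₀ g1.le k1
    have m2 : (1 - 1 / (p : ℝ)) ^ 2 * (1 - 2 / (p : ℝ)) ≤ 1 := mul_le_one₀ m1 g2.le k2
    have m3 : (1 - 1 / (p : ℝ)) ^ 2 * (1 - 2 / (p : ℝ)) * (1 - 3 / (p : ℝ)) ≤ 1 := mul_le_one₀ m2 g3.le k3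
    exact mul_le_one₀ m3 g4.le k4

open Classical in
theorem cnt3 {p : ℕ} [Fact p.Prime] (h2 : p ≠ 2) {b01 b10 c0 c1 u0 u1 : ZMod p} (h0 : u0 ≠ 0) (h1 : u1 ≠ 0)
    (h : b01 * c0 ≠ b10 * c1) : del p * ((p : ℝ) ^ (2 + 1) * (p : ℝ) ^ (2 + 1)) ≤
    (((univ : Finset ((Fin 3 → ZMod p) × (Fin 3 → ZMod p))).filter fun z =>
      z.2 0 ≠ 0 ∧ Good b01 (z.1 1 / u0) b10 (z.1 2 / u1) (z.2 1 / z.2 0) (z.2 2 / z.2 0) c0 c1 (z.1 0)).card : ℝ) := by
  have hp : p.Prime := Fact.out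
  by_cases h3 : p = 3
  · subst h3
    have hc := cnt3_three b01 b10 c0 c1 u0 u1 h0 h1 h
    have hc' := (Nat.cast_le (α := ℝ)).2 hc
    refine le_trans ?_ (hc'.trans (le_of_eq (by congr!)))
    unfold del
    rw [if_pos rfl]
    norm_num
  · have h5 := ge5 hp h2 h3
    have hp0 : (0 : ℝ) < p := by exact_mod_cast hp.pos
    have hc := Pool.Agent.V5helper74.OT.t_CNT p h5 b01 b10 c0 c1 u0 u1 h0 h1 h
    have hc' := (Nat.cast_le (α := ℝ)).2 hc
    refine le_trans (le_of_eq ?_) (hc'.trans (le_of_eq (by congr!)))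
    unfold del
    rw [if_neg h3]
    push_cast [Nat.cast_sub (show 1 ≤ p by omega), Nat.cast_sub (show 2 ≤ p by omega), Nat.cast_sub (show 3 ≤ p by omega),
      Nat.cast_sub (show 4 ≤ p by omega)]
    field_simp

end Pool.Agent.V5helper57.OT
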