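import Pool.Agent.V5helper57.OT.Stm
import Pool.Agent.V5helper57.CP.Pl
import Pool.Agent.Q202.QT.Ker
import Pool.Agent.Q202.QT.NtMap
import Pool.Agent.Results.MP_b583a4_nt.OrdinaryScalar

/-!
# Project OT: from good linking numbers to reducible representations
-/

set_option autoImplicit false

open NumberField Matrix IsLocalRing

namespace Pool.Agent.V5helper57.OT

open Finset Filter
open Pool.Agent.W569.TG (lk)
open Pool.Agent.Q202.RT Pool.Agent.Q202.QT
open Pool.Agent.V5helper57.CP (Lk Adm step)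
open Pool.Agent.Results.MP_b583a4_nt.OrdinaryScalar (UnramifiedOutside ResiduallyScalar Decomposition StableLine Tame
  UnipotentInertia linking AtMostTwo NoPair NoTuple)

section
variable {F K : Type} [Field F] [Field K]

theorem good_map (f : F →+* K) {b01 b02 b10 b12 b20 b21 c0 c1 c2 : F} (h : Good b01 b02 b10 b12 b20 b21 c0 c1 c2) :
    Good (f b01) (f b02) (f b10) (f b12) (f b20) (f b21) (f c0) (f c1) (f c2) := by
  obtain ⟨h1, h2, h3, h4, h5, h6, h7⟩ := h
  have hi := f.injective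
  refine ⟨fun h => h1 (hi h), fun h => h2 (hi h), fun h => h3 (hi h), fun h => h4 (hi ?_), fun h => h5 (hi ?_),
    fun h => h6 (hi ?_), fun h => h7 (hi ?_)⟩
  · rw [map_mul, map_mul, h]
  · rw [map_mul, map_mul, h]
  · rw [map_mul, map_mul, h]
  · rw [map_zero, ← h]
    unfold Phi
    simp only [map_add, map_sub, map_mul, map_pow, map_ofNat]

theorem goodA_map (f : F →+* K) {u : Fin 3 → F} {A : Fin 3 → Fin 3 → F} {c : Fin 3 → F} (h : GoodA u A c) :
    GoodA (fun i => f (u i)) (fun i j => f (A i j)) (fun j => f (c j)) := by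
  have h1 := good_map f h
  simp only [map_div₀] at h1
  exact h1

theorem nti_of (N : ∀ (K : Type) [Field K], (2 : K) ≠ 0 →
    ∀ (u : Fin 3 → K) (A : Fin 3 → Fin 3 → K) (c : Fin 3 → K) (ε : K), (∀ i, u i ≠ 0) → (ε = 0 ∨ ε = 1) →
    GoodA u A c → ∀ (C : Matrix (Fin 2) (Fin 2) K) (T : Fin 3 → Matrix (Fin 2) (Fin 2) K), C.trace = 0 →
    (∀ i, T i * T i = 0) →
    (∀ i, (u i • C + ∑ j, A i j • T j) * T i - T i * (u i • C + ∑ j, A i j • T j) = (ε * u i) • T i) →
    (∃ v : Fin 2 → K, v ≠ 0 ∧ Eigen C v ∧ Eigen (∑ j, c j • T j) v) →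
    ∃ w : Fin 2 → K, w ≠ 0 ∧ Eigen C w ∧ ∀ i, Eigen (T i) w)
    (h2 : (2 : K) ≠ 0) {u : Fin 3 → K} {A : Fin 3 → Fin 3 → K} {c : Fin 3 → K} {ε : K} (hu : ∀ i, u i ≠ 0)
    (hε : ε = 0 ∨ ε = 1) (hG : GoodA u A c) : NTi u A c ε := by
  intro C T hC hT hrel ⟨v, hv0, hv1, hv2⟩
  obtain ⟨w, hw0, hw1, hw2⟩ := N K h2 u A c ε hu hε hG C T hC hT hrel
    ⟨v, hv0, (Pool.Agent.Results.MP_b583a4_nt.OrdinaryScalar.eigen_iff hv0).2 hv1,
      (Pool.Agent.Results.MP_b583a4_nt.OrdinaryScalar.eigen_iff hv0).2 hv2⟩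
  refine ⟨w, hw0, (Pool.Agent.Results.MP_b583a4_nt.OrdinaryScalar.eigen_iff hw0).1 hw1, fun l => ?_⟩
  obtain ⟨c, hc⟩ := hw2 l
  have h2 : (T l * T l) *ᵥ w = c • c • w := by
    rw [← Matrix.mulVec_mulVec, hc, Matrix.mulVec_smul, hc]
  rw [hT l, Matrix.zero_mulVec, smul_smul] at h2
  rcases smul_eq_zero.1 h2.symm with h3 | h3
  · rw [hc, mul_self_eq_zero.1 h3, zero_smul]
  · exact absurd h3 hw0

end

/-- the linking numbers are good -/
def S_NT' : Prop := ∀ (K : Type) [Field K], (2 : K) ≠ 0 →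
    ∀ (u : Fin 3 → K) (A : Fin 3 → Fin 3 → K) (c : Fin 3 → K) (ε : K), (∀ i, u i ≠ 0) → (ε = 0 ∨ ε = 1) →
    GoodA u A c → ∀ (C : Matrix (Fin 2) (Fin 2) K) (T : Fin 3 → Matrix (Fin 2) (Fin 2) K), C.trace = 0 →
    (∀ i, T i * T i = 0) →
    (∀ i, (u i • C + ∑ j, A i j • T j) * T i - T i * (u i • C + ∑ j, A i j • T j) = (ε * u i) • T i) →
    (∃ v : Fin 2 → K, v ≠ 0 ∧ Eigen C v ∧ Eigen (∑ j, c j • T j) v) →
    ∃ w : Fin 2 → K, w ≠ 0 ∧ Eigen C w ∧ ∀ i, Eigen (T i) w

/-- All ordinary representations with scalar reduction whose tame ramification at primes congruent to `1` modulo `p` is in `T` are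
reducible: for all finite sets `S` of primes `l ≠ p` whose members congruent to `1` modulo `p` are in `T`, all complete
discrete valuation rings `A` with finite residue field in which `p` has valuation `e ≥ 1`, every continuous
`ρ : Gal(ℚbar/ℚ) → GL_2(A)`, unramified outside `S` and `p`, residually twice a character, such that `2 e < p - 1` or the inertia
groups at the primes in `S` congruent to `1` modulo `p` act unipotently, and such that the decomposition group at a prime above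
`p` preserves a line, preserves a line. -/
def AlwaysReducible (p : ℕ) (T : Set ℕ) : Prop :=
  ∀ S : Finset ℕ, (∀ l ∈ S, l.Prime ∧ l ≠ p) → (∀ l ∈ S, p ∣ l - 1 → l ∈ T) →
    ∀ (A : Type) [CommRing A] [IsDomain A] [IsDiscreteValuationRing A] [IsAdicComplete (maximalIdeal A) A]
      [TopologicalSpace A], IsAdic (maximalIdeal A) → Finite (ResidueField A) →
    ∀ e : ℕ, 1 ≤ e → (p : A) ∈ maximalIdeal A ^ e → (p : A) ∉ maximalIdeal A ^ (e + 1) →
    ∀ ρ : Gal(AlgebraicClosure ℚ/ℚ) →* GL (Fin 2) A, Continuous ρ → UnramifiedOutside p S ρ → ResiduallyScalar ρ →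
      (2 * e < p - 1 ∨ UnipotentInertia p S ρ) →
      ∀ P : Ideal (𝓞 (AlgebraicClosure ℚ)), P.IsMaximal → (p : 𝓞 (AlgebraicClosure ℚ)) ∈ P →
        StableLine ρ (Decomposition P) → StableLine ρ Set.univ

section
variable {p : ℕ} [Fact p.Prime]

theorem linking_lk {K : Type} [Field K] [CharP K p] (χ : ∀ j : ℕ, (ZMod j)ˣ →* Multiplicative (ZMod p)) (j q : ℕ) :
    linking K j q (χ j) = ZMod.castHom (dvd_refl p) K (lk χ q j) := by
  have : NeZero p := ⟨(Fact.out : p.Prime).ne_zero⟩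
  unfold linking lk
  split_ifs with h
  · rw [ZMod.castHom_apply, ZMod.natCast_val]
  · rw [map_zero]

theorem notuple {K : Type} [Field K] {S : Finset ℕ} {χ : ∀ j : ℕ, (ZMod j)ˣ →* Multiplicative (ZMod p)} {ε : K}
    (N : Pool.Agent.TH831.OE.NTo (Tame p S) (fun l => (((l - 1) / p : ℕ) : K)) (fun l j => linking K j l (χ j))
      (fun j => linking K j p (χ j)) ε) : NoTuple K p S χ ε := by
  intro C T hC hT hrel ⟨v, hv0, hv1, hv2⟩
  obtain ⟨w, hw0, hw1, hw2⟩ := N C T hC hT hrel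
    ⟨v, hv0, (Pool.Agent.Results.MP_b583a4_nt.OrdinaryScalar.eigen_iff hv0).1 hv1,
      (Pool.Agent.Results.MP_b583a4_nt.OrdinaryScalar.eigen_iff hv0).1 hv2⟩
  exact ⟨w, hw0, (Pool.Agent.Results.MP_b583a4_nt.OrdinaryScalar.eigen_iff hw0).2 hw1,
    fun l hl => ⟨0, by rw [hw2 l hl, zero_smul]⟩⟩

theorem sq_of_lv {l : ℕ} (h : lv p l ≠ 0) : ¬ p ^ 2 ∣ l - 1 := by
  intro hd
  apply h
  unfold lv
  rw [ZMod.natCast_eq_zero_iff]
  obtain ⟨m, hm⟩ := hd
  refine ⟨m, ?_⟩
  rw [hm, pow_two, mul_assoc, Nat.mul_div_cancel_left _ (Fact.out : p.Prime).pos]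

/-- **three primes** -/
theorem triple (hNT : S_NT') (hNP : S_NP) (hp2 : p ≠ 2) (χ : ∀ j : ℕ, (ZMod j)ˣ →* Multiplicative (ZMod p))
    (l : Fin 3 → ℕ) (hχ : ∀ i, ∃ x, χ (l i) x ≠ 1) (hli : Function.Injective l) (hu : ∀ i, lv p (l i) ≠ 0)
    (hG : GoodA (fun i => lv p (l i)) (fun i j => lk χ (l i) (l j)) (fun j => lk χ p (l j))) (T : Set ℕ)
    (hTl : T ⊆ Set.range l) : AlwaysReducible p T := by
  have hp : p.Prime := Fact.out
  intro S hS hT A _ _ _ _ _ hA hfin e he h0 h0' ρ hρ hur hres hU P hP hpP hloc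
  have hpm : (p : A) ∈ maximalIdeal A := Ideal.pow_le_self (by omega) h0
  have hchar : CharP (ResidueField A) p := Pool.Agent.TH831.OE.charP_res hp hpm
  have h2κ : (2 : ResidueField A) ≠ 0 :=
    Pool.Agent.TH831.OE.two_ne_of hp2 (Pool.Agent.TH831.OE.natCast_zero_iff hp hpm)
  have hS' : ∀ a ∈ S, a.Prime ∧ a ≠ p ∧ ¬ p ^ 2 ∣ a - 1 := by
    intro a ha
    refine ⟨(hS a ha).1, (hS a ha).2, fun h => ?_⟩
    obtain ⟨i, rfl⟩ := hTl (hT a ha ((dvd_pow_self p two_ne_zero).trans h))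
    exact sq_of_lv (hu i) h
  set φ := ZMod.castHom (dvd_refl p) (ResidueField A) with hφ
  have eu : (fun l : ℕ => (((l - 1) / p : ℕ) : ResidueField A)) = fun l => φ (lv p l) := by
    funext a
    unfold lv
    rw [map_natCast]
  have el : (fun l j : ℕ => linking (ResidueField A) j l (χ j)) = fun l j => φ (lk χ l j) := by
    funext a j
    exact linking_lk χ j a
  have eb : (fun j : ℕ => linking (ResidueField A) j p (χ j)) = fun j => φ (lk χ p j) := by
    funext j
    exact linking_lk χ j p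
  have hsub : Tame p S ⊆ univ.image l := by
    intro a ha
    obtain ⟨i, hi⟩ := hTl (hT a (mem_filter.1 ha).1 (mem_filter.1 ha).2)
    exact mem_image.2 ⟨i, mem_univ i, hi⟩
  have hGK : GoodA (fun i => φ (lv p (l i))) (fun i j => φ (lk χ (l i) (l j))) (fun j => φ (lk χ p (l j))) :=
    goodA_map φ hG
  have huK : ∀ i, φ (lv p (l i)) ≠ 0 := fun i => by
    rw [Ne, map_eq_zero]
    exact hu i
  have hN : ∀ ε : ResidueField A, (ε = 0 ∨ ε = 1) → NoTuple (ResidueField A) p S χ ε := by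
    intro ε hε
    apply notuple
    rw [eu, el, eb]
    exact nto_mono hsub (nto_of_nti hli (u := fun l => φ (lv p l)) (L := fun l j => φ (lk χ l j)) (b := fun j => φ (lk χ p j))
      (nti_of hNT h2κ huK hε hGK))
  have hP' : NoPair (ResidueField A) p S χ := by
    have h : NP (Tame p S) (fun l => (((l - 1) / p : ℕ) : ResidueField A)) (fun l j => linking (ResidueField A) j l (χ j))
        (fun j => linking (ResidueField A) j p (χ j)) := by
      rw [eu, el, eb]
      exact np_mono hsub (np_of_npi hli (u := fun l => φ (lv p l)) (L := fun l j => φ (lk χ l j))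
        (b := fun j => φ (lk χ p j)) (hNP _ _ _ _ huK hGK))
    exact h
  exact Pool.Agent.Results.MP_b583a4_nt.OrdinaryScalar.result p hp2 S hS' A hA hfin e he h0 h0' χ
    (fun a ha => by
      obtain ⟨i, -, rfl⟩ := mem_image.1 (hsub ha)
      exact hχ i)
    (Or.inr ⟨hP', hN 1 (Or.inr rfl), Or.inr (hN 0 (Or.inl rfl))⟩) ρ hρ hur hres hU P hP hpP hloc

/-- **two primes** -/
theorem pair (hp2 : p ≠ 2) (χ : ∀ j : ℕ, (ZMod j)ˣ →* Multiplicative (ZMod p)) {a b : ℕ}
    (hχa : ∃ x, χ a x ≠ 1) (hχb : ∃ x, χ b x ≠ 1) (ha : lv p a ≠ 0) (hb : lv p b ≠ 0)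
    (hG : lk χ a b / lv p a * lk χ p a ≠ lk χ b a / lv p b * lk χ p b) (T : Set ℕ) (hTl : T ⊆ {a, b}) :
    AlwaysReducible p T := by
  have hp : p.Prime := Fact.out
  intro S hS hT A _ _ _ _ _ hA hfin e he h0 h0' ρ hρ hur hres hU P hP hpP hloc
  have hpm : (p : A) ∈ maximalIdeal A := Ideal.pow_le_self (by omega) h0
  have hchar : CharP (ResidueField A) p := Pool.Agent.TH831.OE.charP_res hp hpm
  have hS' : ∀ a ∈ S, a.Prime ∧ a ≠ p ∧ ¬ p ^ 2 ∣ a - 1 := by
    intro x hx
    refine ⟨(hS x hx).1, (hS x hx).2, fun h => ?_⟩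
    rcases hTl (hT x hx ((dvd_pow_self p two_ne_zero).trans h)) with rfl | rfl
    · exact sq_of_lv ha h
    · exact sq_of_lv hb h
  set φ := ZMod.castHom (dvd_refl p) (ResidueField A) with hφ
  have hinj : Function.Injective φ := φ.injective
  have hsub : ∀ k ∈ Tame p S, k = a ∨ k = b := by
    intro k hk
    exact hTl (hT k (mem_filter.1 hk).1 (mem_filter.1 hk).2)
  have hG' : lv p b * lk χ a b * lk χ p a ≠ lv p a * lk χ b a * lk χ p b := by
    intro h
    apply hG
    rw [div_mul_eq_mul_div, div_mul_eq_mul_div, div_eq_div_iff ha hb]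
    linear_combination h
  have h1 : lk χ p b ≠ 0 ∨ lk χ a b ≠ 0 := by
    by_contra hc
    push Not at hc
    apply hG'
    rw [hc.1, hc.2]
    ring
  have h2 : lk χ p a ≠ 0 ∨ lk χ b a ≠ 0 := by
    by_contra hc
    push Not at hc
    apply hG'
    rw [hc.1, hc.2]
    ring
  have eu : ∀ l : ℕ, (((l - 1) / p : ℕ) : ResidueField A) = φ (lv p l) := by
    intro a
    unfold lv
    rw [map_natCast]
  have hz : ∀ x : ZMod p, φ x ≠ 0 ↔ x ≠ 0 := fun x => by rw [Ne, map_eq_zero]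
  refine Pool.Agent.Results.MP_b583a4_nt.OrdinaryScalar.result p hp2 S hS' A hA hfin e he h0 h0' χ
    (fun k hk => by
      rcases hsub k hk with rfl | rfl
      · exact hχa
      · exact hχb)
    (Or.inl ⟨?_, ?_⟩) ρ hρ hur hres hU P hP hpP hloc
  · refine (card_le_card (t := {a, b}) fun k hk => ?_).trans Finset.card_le_two
    rw [mem_insert, mem_singleton]
    exact hsub k hk
  · intro k hk l hl hkl
    rw [linking_lk χ l p, linking_lk χ l k, linking_lk χ k l, linking_lk χ k p, eu, eu, ← map_mul, ← map_mul, ← map_mul,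
      ← map_mul]
    rcases hsub k hk with rfl | rfl <;> rcases hsub l hl with rfl | rfl
    · exact absurd rfl hkl
    · refine ⟨?_, Or.inr fun h => hG' ?_⟩
      · rcases h1 with h | h
        · exact Or.inl ((hz _).2 h)
        · exact Or.inr ((hz _).2 h)
      · have := hinj h
        linear_combination -this
    · refine ⟨?_, Or.inr fun h => hG' ?_⟩
      · rcases h2 with h | h
        · exact Or.inl ((hz _).2 h)
        · exact Or.inr ((hz _).2 h)
      · have := hinj h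
        linear_combination this
    · exact absurd rfl hkl

end

end Pool.Agent.V5helper57.OT
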