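import Mathlib

/-!
# Project OT: ordinary representations with scalar reduction, pairs and triples of tame primes (MP_b583a4_nt)

Three tame primes `q_0, q_1, q_2`; `u i = (q_i - 1) / p`, `A i j = χ_j (q_i)`, `c j = χ_j (p)` (in a field `K`, `2 ≠ 0`), and
`b i j = A i j / u i`. `Good b01 b02 b10 b12 b20 b21 c0 c1 c2` is the condition: with `α = b20 - b10`,
`β = b01 - b21`, `γ = b12 - b02` it says `α, β, γ ≠ 0`, `b_ij c_i ≠ b_ji c_j` for the three pairs, and `Φ ≠ 0`, where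
`Φ = R ^ 2 + (αβγ - 4 P) Q`.

THEOREM. If the linking numbers are good, then the conditions `NoPair`, `NoTuple` (`ε = 0, 1`) of the starting criterion
`OrdinaryScalar` hold, over every field of characteristic `p`. So every ordinary `ρ : Gal(ℚbar/ℚ) → GL_2(A)` with scalar
reduction (all complete discrete valuation rings `A` with finite residue field) ramified at `p`, `q_0, q_1, q_2` and
primes `≢ 1 mod p` is reducible. For a positive proportion of the triples the linking numbers are good (all `p ≥ 5`).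
-/

set_option autoImplicit false

open Matrix

namespace Pool.Agent.V5helper57.OT

section
variable {K : Type} [Field K]

/-- `v` is an eigenvector of `M` (or zero). -/
def Eigen (M : Matrix (Fin 2) (Fin 2) K) (v : Fin 2 → K) : Prop := ∃ c : K, M *ᵥ v = c • v

/-- the polynomial -/
def Phi (b01 b02 b10 b12 b20 b21 c0 c1 c2 : K) : K :=
  ((b10 * c1 + b01 * c0) * (b12 - b02) + (b10 * c2 + b02 * c0) * (b01 - b21) +
      (b12 * c1 + b01 * c2) * (b20 - b10)) ^ 2 +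
    ((b20 - b10) * (b01 - b21) * (b12 - b02) -
      4 * (b01 * b10 * (b12 - b02) + b02 * b10 * (b01 - b21) + b01 * b12 * (b20 - b10))) *
    (c0 * c1 * (b12 - b02) + c0 * c2 * (b01 - b21) + c1 * c2 * (b20 - b10))

/-- good linking numbers -/
def Good (b01 b02 b10 b12 b20 b21 c0 c1 c2 : K) : Prop :=
  b20 ≠ b10 ∧ b01 ≠ b21 ∧ b12 ≠ b02 ∧ b01 * c0 ≠ b10 * c1 ∧ b02 * c0 ≠ b20 * c2 ∧ b12 * c1 ≠ b21 * c2 ∧
    Phi b01 b02 b10 b12 b20 b21 c0 c1 c2 ≠ 0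

/-- good linking numbers, in terms of `u`, `A` -/
def GoodA (u : Fin 3 → K) (A : Fin 3 → Fin 3 → K) (c : Fin 3 → K) : Prop :=
  Good (A 0 1 / u 0) (A 0 2 / u 0) (A 1 0 / u 1) (A 1 2 / u 1) (A 2 0 / u 2) (A 2 1 / u 2) (c 0) (c 1) (c 2)

end

/-- **NIL** (60 lines). The vectors. (a) A matrix with `T * T = 0` is `s N(v)` with `v ≠ 0`,
`N(v) w = ω(v, w) v`, `ω(v, w) = v_0 w_1 - v_1 w_0`, i.e. `N(v) = [[-v_0 v_1, v_0 ^ 2], [-v_1 ^ 2, v_0 v_1]]`: for `T = [[a, b], [c, d]]` we have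
`d = -a` (`trace T = 0`, e.g. `Matrix.isNilpotent_trace_of_isNilpotent`) and `a ^ 2 + b c = 0`. If `b ≠ 0` take `v = (b, -a)`, `s = 1 / b`;
if `b = 0` then `a = 0`, take `v = (0, 1)`, `s = -c`. (b) If `M` has trace zero and `M N(v) - N(v) M = lam N(v)`, `v ≠ 0`, then
`2 M v = lam v`: with `M = [[m, n], [r, -m]]` the entries of the equation are `2 v_0 (m v_0 + n v_1) = lam v_0 ^ 2`,
`2 v_1 (r v_0 - m v_1) = lam v_1 ^ 2`, `r v_0 ^ 2 + n v_1 ^ 2 = lam v_0 v_1`. If `v_0 ≠ 0` the first one gives the first component, and the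
last one then the second component times `v_0`; similarly if `v_1 ≠ 0`. -/
def S_NIL : Prop := ∀ (K : Type) [Field K], (2 : K) ≠ 0 →
  (∀ T : Matrix (Fin 2) (Fin 2) K, T * T = 0 → ∃ (s : K) (v : Fin 2 → K), v ≠ 0 ∧
    T = s • !![-(v 0 * v 1), v 0 ^ 2; -(v 1 ^ 2), v 0 * v 1]) ∧
  ∀ (M : Matrix (Fin 2) (Fin 2) K) (v : Fin 2 → K) (lam : K), M.trace = 0 → v ≠ 0 →
    M * !![-(v 0 * v 1), v 0 ^ 2; -(v 1 ^ 2), v 0 * v 1] -
      !![-(v 0 * v 1), v 0 ^ 2; -(v 1 ^ 2), v 0 * v 1] * M =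
        lam • !![-(v 0 * v 1), v 0 ^ 2; -(v 1 ^ 2), v 0 * v 1] →
    (2 : K) • (M *ᵥ v) = lam • v

/-- **TWO** (100 lines). The forms. `C`, `T_i = s_i N(v_i)` (`i = 0, 1, 2`), `ω_ij = ω(v_i, v_j)`, with
`C v_i + ∑_j b_ij s_j ω_ji v_j = (ε/2) v_i` (this is the relation of `NIL`, divided by `u_i`) for all `i` with `s_i ≠ 0`. Then
for `{i, j, k} = {0, 1, 2}` with `s_i, s_k ≠ 0`: `(b_ij - b_kj) s_j ω_ij ω_jk = ε ω_ki`. Proof: apply `ω(v_k, ·)` to the equation for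
`i`, `ω(v_i, ·)` to the one for `k`, and use `ω(v_k, C v_i) = ω(v_i, C v_k)` (`trace C = 0`); it is a `linear_combination` in the
coordinates. (The hypotheses: `C 1 1 = - C 0 0`, and the two equations for `i` and `k`, two components each; all terms with
`j = i`, `j = k` vanish.) -/
def S_TWO : Prop := ∀ (K : Type) [Field K], (2 : K) ≠ 0 → ∀ (C : Matrix (Fin 2) (Fin 2) K) (x y z : Fin 2 → K)
  (ε bxy bxz byx byz sx sy sz : K), C.trace = 0 →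
  (2 : K) • (C *ᵥ x + (bxy * sy * (y 0 * x 1 - y 1 * x 0)) • y + (bxz * sz * (z 0 * x 1 - z 1 * x 0)) • z) = ε • x →
  (2 : K) • (C *ᵥ y + (byx * sx * (x 0 * y 1 - x 1 * y 0)) • x + (byz * sz * (z 0 * y 1 - z 1 * y 0)) • z) = ε • y →
  (bxz - byz) * sz * ((x 0 * z 1 - x 1 * z 0) * (z 0 * y 1 - z 1 * y 0)) = ε * (y 0 * x 1 - y 1 * x 0)

/-- **PAR** (100 lines). Two matrices `T_x = s_x N(x)`, `T_y = s_y N(y)`, not parallel, `ε = 0`: `2 C x + … = 0`, `2 C y + … = 0`. If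
`C` and `c_x T_x + c_y T_y` have a common eigenvector `v ≠ 0` then `b_xy c_x = b_yx c_y`. Proof: `v = a x + d y`
(`a = ω(v, y) / ω(x, y)`, `d = ω(x, v) / ω(x, y)`), `ω(v, C v) = 0` and `ω(v, (c_x T_x + c_y T_y) v) = 0` are, after division by `ω(x, y) ^ 2`,
`a ^ 2 b_xy s_y + d ^ 2 b_yx s_x = 0` and `a ^ 2 c_y s_y + d ^ 2 c_x s_x = 0`; so `s_x s_y (b_xy c_x - b_yx c_y) = 0`, as `(a, d) ≠ 0`. -/
def S_PAR : Prop := ∀ (K : Type) [Field K], (2 : K) ≠ 0 → ∀ (C : Matrix (Fin 2) (Fin 2) K) (x y v : Fin 2 → K)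
  (bxy byx sx sy cx cy : K), C.trace = 0 → sx ≠ 0 → sy ≠ 0 → x 0 * y 1 - x 1 * y 0 ≠ 0 →
  C *ᵥ x + (bxy * sy * (y 0 * x 1 - y 1 * x 0)) • y = 0 →
  C *ᵥ y + (byx * sx * (x 0 * y 1 - x 1 * y 0)) • x = 0 → v ≠ 0 → Eigen C v →
  Eigen (cx • sx • !![-(x 0 * x 1), x 0 ^ 2; -(x 1 ^ 2), x 0 * x 1] +
    cy • sy • !![-(y 0 * y 1), y 0 ^ 2; -(y 1 ^ 2), y 0 * y 1]) v → bxy * cx = byx * cy

/-- **TRI** (150 lines). Three matrices, pairwise not parallel, `ε = 1`; here `z = x + y` (after scaling), `ω = ω(x, y) ≠ 0`, and by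
`TWO` `(b20 - b10) s_x ω = 1`, `(b01 - b21) s_y ω = 1`, `(b12 - b02) s_z ω = 1` (hypotheses). With `X = s_x ω`, `Y = s_y ω`, `Z = s_z ω` and
`v = a x + d y`: `ω(v, C v) / ω = a ^ 2 (b01 Y + b02 Z) + 2 a d (1/2 - b12 Z) + d ^ 2 (b10 X + b12 Z) =: A a² + 2 B a d + C d²`,
`ω(v, T v) / ω = -a ^ 2 (c1 Y + c2 Z) + 2 a d c2 Z - d ^ 2 (c0 X + c2 Z) =: A' a² + 2 B' a d + C' d²` (`T = ∑ c_i T_i`). Both vanish for
`(a, d) ≠ 0`, so `(A C' - C A') ^ 2 = 4 (A B' - B A') (B C' - C B')` (if `a, d ≠ 0` from `a (a D1 + 2 d D2) = 0`,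
`d (2 a D3 + d D1) = 0`; if `a = 0` then `C = C' = 0`, if `d = 0` then `A = A' = 0`). The left side minus the right side is
`(A C' + A' C - 2 B B') ^ 2 - 4 (A C - B ^ 2) (A' C' - B' ^ 2)`, and with `b02 Z = b12 Z - 1` it is
`Φ X ^ 2 Y ^ 2 Z ^ 2` (multiply by `(b20 - b10)²(b01 - b21)²(b12 - b02)²`, as `(b20 - b10) X = 1`, …). So `Φ = 0`.
(Only the equations for `x` and `y` are needed.) -/
def S_TRI : Prop := ∀ (K : Type) [Field K], (2 : K) ≠ 0 → ∀ (C : Matrix (Fin 2) (Fin 2) K) (x y v : Fin 2 → K)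
  (b01 b02 b10 b12 b20 b21 c0 c1 c2 sx sy sz : K), C.trace = 0 → x 0 * y 1 - x 1 * y 0 ≠ 0 →
  (b20 - b10) * sx * (x 0 * y 1 - x 1 * y 0) = 1 → (b01 - b21) * sy * (x 0 * y 1 - x 1 * y 0) = 1 →
  (b12 - b02) * sz * (x 0 * y 1 - x 1 * y 0) = 1 →
  (2 : K) • (C *ᵥ x + (b01 * sy * (y 0 * x 1 - y 1 * x 0)) • y +
    (b02 * sz * ((x 0 + y 0) * x 1 - (x 1 + y 1) * x 0)) • (x + y)) = x →
  (2 : K) • (C *ᵥ y + (b10 * sx * (x 0 * y 1 - x 1 * y 0)) • x +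
    (b12 * sz * ((x 0 + y 0) * y 1 - (x 1 + y 1) * y 0)) • (x + y)) = y →
  v ≠ 0 → Eigen C v →
  Eigen (c0 • sx • !![-(x 0 * x 1), x 0 ^ 2; -(x 1 ^ 2), x 0 * x 1] +
    c1 • sy • !![-(y 0 * y 1), y 0 ^ 2; -(y 1 ^ 2), y 0 * y 1] +
    c2 • sz • !![-((x 0 + y 0) * (x 1 + y 1)), (x 0 + y 0) ^ 2; -((x 1 + y 1) ^ 2), (x 0 + y 0) * (x 1 + y 1)]) v →
  Phi b01 b02 b10 b12 b20 b21 c0 c1 c2 = 0

/-- **NT** (200 lines). No tuple. From NIL, TWO, PAR, TRI. By NIL `T i = s_i N(v_i)`, `v_i ≠ 0`; if `s_i ≠ 0` the relation gives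
(`M = u_i C + ∑_j A_ij T_j`, the term `j = i` commutes with `T_i`) `2 (C v_i + ∑_{j ≠ i} b_ij s_j ω_ji v_j) = ε v_i`, `b_ij = A_ij / u_i`.
* all `s_i = 0`: take `w = v`. Exactly one `s_i ≠ 0`: `w = v_i` (`2 C v_i = ε v_i`).
* exactly `s_i, s_k ≠ 0`: TWO (with `s_j = 0`) gives `0 = ε ω_ki`. If `ω_ki = 0` then `v_k` is a multiple of `v_i`, `w = v_i`. Otherwise
  `ε = 0` and PAR contradicts `b_ik c_i ≠ b_ki c_k`.
* all `s_i ≠ 0`: by TWO, `(b_ij - b_kj) s_j ω_ij ω_jk = ε ω_ki` for all three `j`, and `b_ij ≠ b_kj`. So if some `ω_ki = 0` then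
  `ω_ij ω_jk = 0`, say, `v_j` is parallel to `v_i` or `v_k`, and all are parallel: `w = v_0`. If no `ω` vanishes, then
  `ε ≠ 0`, so `ε = 1`; write `v_2 = a v_0 + d v_1`, `a, d ≠ 0`, replace `v_0`, `s_0` by `a v_0`, `s_0 / a ^ 2` and `v_1`, `s_1` by
  `d v_1`, `s_1 / d ^ 2` (the `T_i` and the equations do not change) and apply TRI (its three hypotheses are TWO). -/
def S_NT : Prop := S_NIL → S_TWO → S_PAR → S_TRI → ∀ (K : Type) [Field K], (2 : K) ≠ 0 →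
  ∀ (u : Fin 3 → K) (A : Fin 3 → Fin 3 → K) (c : Fin 3 → K) (ε : K), (∀ i, u i ≠ 0) → (ε = 0 ∨ ε = 1) →
  GoodA u A c → ∀ (C : Matrix (Fin 2) (Fin 2) K) (T : Fin 3 → Matrix (Fin 2) (Fin 2) K), C.trace = 0 →
  (∀ i, T i * T i = 0) →
  (∀ i, (u i • C + ∑ j, A i j • T j) * T i - T i * (u i • C + ∑ j, A i j • T j) = (ε * u i) • T i) →
  (∃ v : Fin 2 → K, v ≠ 0 ∧ Eigen C v ∧ Eigen (∑ j, c j • T j) v) →
  ∃ w : Fin 2 → K, w ≠ 0 ∧ Eigen C w ∧ ∀ i, Eigen (T i) w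

/-- **NP** (100 lines). No pair. By symmetry let `xp = 0`, `∑ c_j x_j = 0` and suppose `x ≠ 0` and `(yp, y) ≠ 0`. The supports of
`x` and `y` are disjoint. If `y = 0` then `yp ≠ 0` and `x_i u_i yp = 0`: `x = 0`. `y = (y_i)`, `x = (x_j)` alone: `c_j = 0`, and
`A_ij x_j = 0`: `b_ij c_i = 0 = b_ji c_j`, contradiction. `y = (y_i)`, `x = (x_j, x_k)`: `u_j yp + A_ji y_i = 0 = u_k yp + A_ki y_i`,
so `b_ji = b_ki`, contradiction. `y = (y_i, y_j)`, `x = (x_k)`: `c_k = 0` and `A_ik = 0`: contradiction as before.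
(`x_i A_ii y_i = 0` always.) 27 cases `x_i = 0 ∧ y_i = 0`, `x_i ≠ 0`, `y_i ≠ 0`. -/
def S_NP : Prop := ∀ (K : Type) [Field K] (u : Fin 3 → K) (A : Fin 3 → Fin 3 → K) (c : Fin 3 → K), (∀ i, u i ≠ 0) →
  GoodA u A c → ∀ (xp yp : K) (x y : Fin 3 → K), (∀ i, x i * y i = 0) →
  (∀ i, x i * (u i * yp + ∑ j, A i j * y j) = 0) → (∀ i, y i * (u i * xp + ∑ j, A i j * x j) = 0) →
  ((xp = 0 ∧ ∑ j, c j * x j = 0) ∨ (yp = 0 ∧ ∑ j, c j * y j = 0)) →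
  (xp = 0 ∧ ∀ i, x i = 0) ∨ (yp = 0 ∧ ∀ i, y i = 0)

open Classical in
/-- **CNT** (200 lines). Counting. Coordinates: `w = (c2, A 0 2, A 1 2)`, `s = (u 2, A 2 0, A 2 1)`. Choose `s 0 ≠ 0` (`p - 1` values),
`b20 = s 1 / s 0` different from `0` and `b10` (at least `p - 2` values), `b21 = s 2 / s 0` different from `0`, `b01` and such that
`r = b10 (b01 - b21) + b01 (b20 - b10) ≠ 0` (at least `p - 3` values: if `b10 ≠ 0` one more value is excluded, if `b10 = 0` then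
`b01 ≠ 0` and `r = b01 b20 ≠ 0`), `w 1` arbitrary, `w 2` with `w 2 / u1 ≠ w 1 / u0` (`p - 1` values), and `w 0 = c2` different from
`b02 c0 / b20`, `b12 c1 / b21` and the at most two zeros of `Φ`, which is a polynomial of degree two in `c2` with leading coefficient
`r ^ 2 ≠ 0` (at least `p - 4` values). -/
def S_CNT : Prop := ∀ (p : ℕ) [Fact p.Prime], 5 ≤ p → ∀ b01 b10 c0 c1 u0 u1 : ZMod p, u0 ≠ 0 → u1 ≠ 0 →
  b01 * c0 ≠ b10 * c1 →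
  (p - 1) * ((p - 2) * ((p - 3) * (p * ((p - 1) * (p - 4))))) ≤
    ((Finset.univ : Finset ((Fin 3 → ZMod p) × (Fin 3 → ZMod p))).filter fun z =>
      z.2 0 ≠ 0 ∧ Good b01 (z.1 1 / u0) b10 (z.1 2 / u1) (z.2 1 / z.2 0) (z.2 2 / z.2 0) c0 c1 (z.1 0)).card

end Pool.Agent.V5helper57.OT
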